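import Mathlib
import Pool.Agent.N546.PN.Stm3

/-!
# PW/FILW (helper530): a point on a degenerate conic is near a point on a nondegenerate one
-/

set_option autoImplicit false

namespace Pool.Agent.N530.PW

open Pool.Agent.N546.PN

section

variable {K : Type} [NontriviallyNormedField K]

private theorem n1 (A : K) {δ : ℝ} (hδ : 0 < δ) :
    ∃ B : K, B ≠ 0 ∧ ‖B - A‖ < δ ∧ (A ≠ 0 → B = A) := by
  by_cases h : A = 0
  · obtain ⟨y, hy0, hy⟩ := NormedField.exists_norm_lt K hδ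
    exact ⟨y, norm_pos_iff.1 hy0, by rw [h, sub_zero]; exact hy, fun h1 => absurd h h1⟩
  · exact ⟨A, h, by simpa using hδ, fun _ => rfl⟩

private theorem n2 {B : K} (hB : B ≠ 0) (c x : K) {δ : ℝ} (hδ : 0 < δ) :
    ∃ y : K, ‖y - x‖ < δ ∧ B * y ^ 2 + c ≠ 0 := by
  by_contra hcon
  push Not at hcon
  obtain ⟨e1, h10, h1⟩ := NormedField.exists_norm_lt K hδ
  obtain ⟨e2, h20, h2⟩ := NormedField.exists_norm_lt K h10
  have g0 := hcon x (by simpa using hδ)
  have key : ∀ e : K, 0 < ‖e‖ → ‖e‖ < δ → 2 * x + e = 0 := by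
    intro e he0 he
    have g1 := hcon (x + e) (by simpa using he)
    have he' : e ≠ 0 := norm_pos_iff.1 he0
    have g2 : B * (e * (2 * x + e)) = 0 := by linear_combination g1 - g0
    rcases mul_eq_zero.1 g2 with h | h
    · exact absurd h hB
    · rcases mul_eq_zero.1 h with h | h
      · exact absurd h he'
      · exact h
  have k1 := key e1 h10 h1
  have k2 := key e2 h20 (h2.trans h1)
  have : e1 = e2 := by linear_combination k1 - k2
  rw [this] at h2
  exact lt_irrefl _ h2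

private theorem core (A1 A2 z0 z1 z2 : K) (h : A1 * z1 ^ 2 + A2 * z2 ^ 2 = 0) {ε : ℝ}
    (hε : 0 < ε) : ∃ B0 B1 B2 x0 x1 x2 : K, B0 ≠ 0 ∧ B1 ≠ 0 ∧ B2 ≠ 0 ∧ ‖B0‖ < ε ∧
      (A1 ≠ 0 → B1 = A1) ∧ (A1 = 0 → ‖B1‖ < ε) ∧ (A2 ≠ 0 → B2 = A2) ∧ (A2 = 0 → ‖B2‖ < ε) ∧
      ‖x0 - z0‖ < ε ∧ ‖x1 - z1‖ < ε ∧ ‖x2 - z2‖ < ε ∧ x0 ≠ 0 ∧
      B0 * x0 ^ 2 + B1 * x1 ^ 2 + B2 * x2 ^ 2 = 0 := by
  obtain ⟨x0, hx0, hx0z, -⟩ := n1 z0 hε
  have hpos : 0 < ε * ‖x0 ^ 2‖ := mul_pos hε (norm_pos_iff.2 (pow_ne_zero 2 hx0))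
  have hcont : Continuous fun p : K × K × K => p.1 * p.2.2 ^ 2 + p.2.1 * z2 ^ 2 := by fun_prop
  obtain ⟨δ, hδ, hcl⟩ := Metric.continuousAt_iff.1
    (hcont.continuousAt (x := (A1, A2, z1))) _ hpos
  have hm : 0 < min δ ε := lt_min hδ hε
  obtain ⟨B1, hB1, hB1A, hB1e⟩ := n1 A1 hm
  obtain ⟨B2, hB2, hB2A, hB2e⟩ := n1 A2 hm
  obtain ⟨x1, hx1, hne⟩ := n2 hB1 (B2 * z2 ^ 2) z1 hm
  have hsm : ‖B1 * x1 ^ 2 + B2 * z2 ^ 2‖ < ε * ‖x0 ^ 2‖ := by
    have h1 := @hcl (B1, B2, x1) (by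
      rw [Prod.dist_eq, Prod.dist_eq, dist_eq_norm, dist_eq_norm, dist_eq_norm]
      exact max_lt (hB1A.trans_le (min_le_left _ _))
        (max_lt (hB2A.trans_le (min_le_left _ _)) (hx1.trans_le (min_le_left _ _))))
    rw [dist_eq_norm] at h1
    simp only [h, sub_zero] at h1
    exact h1
  refine ⟨-(B1 * x1 ^ 2 + B2 * z2 ^ 2) / x0 ^ 2, B1, B2, x0, x1, z2, ?_, hB1, hB2, ?_, hB1e,
    ?_, hB2e, ?_, hx0z, hx1.trans_le (min_le_right _ _), by simpa using hε, hx0, ?_⟩
  · exact div_ne_zero (neg_ne_zero.2 hne) (pow_ne_zero 2 hx0)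
  · rw [norm_div, norm_neg, div_lt_iff₀ (norm_pos_iff.2 (pow_ne_zero 2 hx0))]
    exact hsm
  · intro h1
    rw [h1, sub_zero] at hB1A
    exact hB1A.trans_le (min_le_right _ _)
  · intro h1
    rw [h1, sub_zero] at hB2A
    exact hB2A.trans_le (min_le_right _ _)
  · rw [div_mul_cancel₀ _ (pow_ne_zero 2 hx0)]
    ring

end

theorem filw_ (K : Type) [NontriviallyNormedField K] : S_FILW K := by
  intro a z hz heq ε hε
  by_cases h0 : a 0 = 0
  · obtain ⟨B0, B1, B2, x0, x1, x2, hB0, hB1, hB2, hs0, he1, hs1, he2, hs2, hx0, hx1, hx2, hne, hs⟩ :=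
      core (a 1) (-a 2) (z 0) (z 1) (z 2) (by rw [h0] at heq; linear_combination heq) hε
    refine ⟨![B0, B1, -B2], ![x0, x1, x2], ?_, ?_, ?_, ?_, ?_, ?_⟩
    · intro l; fin_cases l
      · exact hB0
      · exact hB1
      · exact neg_ne_zero.2 hB2
    · intro l; fin_cases l
      · exact fun h => absurd h0 h
      · exact he1
      · intro h
        change -B2 = a 2
        rw [he2 (neg_ne_zero.2 h), neg_neg]
    · intro l; fin_cases l
      · exact fun _ => hs0
      · exact hs1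
      · intro h
        change ‖-B2‖ < ε
        rw [norm_neg]
        exact hs2 (neg_eq_zero.2 h)
    · intro l; fin_cases l
      · exact hx0
      · exact hx1
      · exact hx2
    · intro h
      exact hne (congrFun h 0)
    · change B0 * x0 ^ 2 + B1 * x1 ^ 2 = -B2 * x2 ^ 2
      linear_combination hs
  by_cases h1 : a 1 = 0
  · obtain ⟨B0, B1, B2, x0, x1, x2, hB0, hB1, hB2, hs0, he1, hs1, he2, hs2, hx0, hx1, hx2, hne, hs⟩ :=
      core (a 0) (-a 2) (z 1) (z 0) (z 2) (by rw [h1] at heq; linear_combination heq) hε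
    refine ⟨![B1, B0, -B2], ![x1, x0, x2], ?_, ?_, ?_, ?_, ?_, ?_⟩
    · intro l; fin_cases l
      · exact hB1
      · exact hB0
      · exact neg_ne_zero.2 hB2
    · intro l; fin_cases l
      · exact he1
      · exact fun h => absurd h1 h
      · intro h
        change -B2 = a 2
        rw [he2 (neg_ne_zero.2 h), neg_neg]
    · intro l; fin_cases l
      · exact hs1
      · exact fun _ => hs0
      · intro h
        change ‖-B2‖ < ε
        rw [norm_neg]
        exact hs2 (neg_eq_zero.2 h)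
    · intro l; fin_cases l
      · exact hx1
      · exact hx0
      · exact hx2
    · intro h
      exact hne (congrFun h 1)
    · change B1 * x1 ^ 2 + B0 * x0 ^ 2 = -B2 * x2 ^ 2
      linear_combination hs
  by_cases h2 : a 2 = 0
  · obtain ⟨B0, B1, B2, x0, x1, x2, hB0, hB1, hB2, hs0, he1, hs1, he2, hs2, hx0, hx1, hx2, hne, hs⟩ :=
      core (a 0) (a 1) (z 2) (z 0) (z 1) (by rw [h2] at heq; linear_combination heq) hε
    refine ⟨![B1, B2, -B0], ![x1, x2, x0], ?_, ?_, ?_, ?_, ?_, ?_⟩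
    · intro l; fin_cases l
      · exact hB1
      · exact hB2
      · exact neg_ne_zero.2 hB0
    · intro l; fin_cases l
      · exact he1
      · exact he2
      · exact fun h => absurd h2 h
    · intro l; fin_cases l
      · exact hs1
      · exact hs2
      · intro _
        change ‖-B0‖ < ε
        rw [norm_neg]
        exact hs0
    · intro l; fin_cases l
      · exact hx1
      · exact hx2
      · exact hx0
    · intro h
      exact hne (congrFun h 2)
    · change B1 * x1 ^ 2 + B2 * x2 ^ 2 = -B0 * x0 ^ 2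
      linear_combination hs
  refine ⟨a, z, ?_, fun l _ => rfl, ?_, ?_, hz, heq⟩
  · intro l; fin_cases l
    · exact h0
    · exact h1
    · exact h2
  · intro l; fin_cases l
    · exact fun h => absurd h h0
    · exact fun h => absurd h h1
    · exact fun h => absurd h h2
  · intro l
    rw [sub_self, norm_zero]
    exact hε

end Pool.Agent.N530.PW
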